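import Pool.Agent.LibFPF.Tower

set_option autoImplicit false

namespace Pool.Agent.LibFPF

open Finset

variable {p : ℕ} {R : Type*} [CommRing R] {B : Type} [Fintype B] [DecidableEq B]

theorem opX_entry (n : ZMod p → B → R) (η : ZMod p) (b : B) :
    opX n η {(b, false)} ∅ = n η b := by
  rw [opX, lin, Matrix.sum_apply]
  rw [Finset.sum_eq_single (b, false)]
  · rw [Matrix.smul_apply, cr_apply]
    simp [sh]
  · intro a _ ha
    rw [Matrix.smul_apply, cr_apply, if_neg]
    · simp
    · rintro ⟨h1, _⟩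
      exact ha (Finset.mem_singleton.mp h1)
  · intro h; exact absurd (Finset.mem_univ _) h

theorem faithful [Fact p.Prime] (hp2 : p ≠ 2) (h2 : (2 : R) = 0) (w : B → ZMod p)
    (hw : ∀ b, w b ≠ 0)
    (χ : AddChar (ZMod p) R) (hχ : ∀ c : ZMod p, c ≠ 0 → ∑ j, χ (j * c) = 0)
    (v : ZMod p × ZMod p) (hv : v ≠ 0) (b : B) (r : R)
    (h : r • act (nw w) χ v (opX (bv 0 b)) = r • opX (bv 0 b)) : r = 0 := by
  rw [act_X] at h
  have h1 := congrFun (congrFun (congrFun h 0) {(b, false)}) ∅
  simp only [Pi.smul_apply, Matrix.smul_apply, opX_entry, smul_eq_mul] at h1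
  have e1 : (bv (R := R) (0 : ZMod p) b) 0 b = 1 := by simp [bv]
  rw [e1, mul_one] at h1
  by_cases hv1 : v.1 = 0
  · have hv2 : v.2 ≠ 0 := by
      intro h0; exact hv (Prod.ext hv1 h0)
    rw [hv1, add_zero, e1, mul_one] at h1
    have hc : v.2 * w b ≠ 0 := mul_ne_zero hv2 (hw b)
    set c := v.2 * w b with hcdef
    have key : ∀ n : ℕ, r * χ ((n : ZMod p) * c) = r := by
      intro n
      induction n with
      | zero => simp
      | succ n ih =>
        rw [Nat.cast_succ, add_mul, one_mul, AddChar.map_add_eq_mul, ← mul_assoc, ih, h1]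
    have key2 : ∀ j : ZMod p, r * χ (j * c) = r := by
      intro j
      have := key j.val
      rwa [ZMod.natCast_zmod_val] at this
    have hs : r * ∑ j, χ (j * c) = 0 := by rw [hχ c hc, mul_zero]
    rw [Finset.mul_sum, Finset.sum_congr rfl (fun j _ => key2 j), Finset.sum_const,
      Finset.card_univ, ZMod.card] at hs
    have hp : p.Prime := Fact.out
    obtain ⟨k, hk⟩ := hp.odd_of_ne_two hp2
    rw [hk, add_smul, mul_comm, mul_smul, one_smul, two_smul] at hs
    have : k • r + k • r = 0 := by rw [← two_mul, h2, zero_mul]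
    have h3 : k • (r + r) = 0 := by rw [smul_add, this]
    rw [h3, zero_add] at hs
    exact hs
  · have e2 : (bv (R := R) (0 : ZMod p) b) (0 + v.1) b = 0 := by
      rw [bv, zero_add, Pi.single_apply, if_neg hv1]; rfl
    rw [e2, mul_zero, mul_zero] at h1
    exact h1.symm

end Pool.Agent.LibFPF
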