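import Pool.Agent.LibFPF.Gamma

set_option autoImplicit false

namespace Pool.Agent.LibFPF

open Finset
open scoped commutatorElement

theorem deep_mem {A : Type*} [Ring A] {L : AddSubgroup A}
    (hbr : ∀ x ∈ L, ∀ y ∈ L, br x y ∈ L) : ∀ j, ∀ x ∈ Deep L j, x ∈ L := by
  intro j
  induction j with
  | zero => exact fun x hx => hx
  | succ j ih =>
    rintro x (hx | ⟨e₁, e₂, h₁, h₂, rfl⟩)
    · exact ih x hx.1
    · exact hbr _ (ih _ h₁.1) _ (ih _ h₂.1)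

theorem split_card {K : ℕ} {I : Finset (Fin K)} {a b : ℕ} (h : a + b ≤ I.card) :
    ∃ I₁ I₂ : Finset (Fin K), a ≤ I₁.card ∧ b ≤ I₂.card ∧ Disjoint I₁ I₂ ∧ I₁ ∪ I₂ = I := by
  obtain ⟨I₁, hI₁, hc⟩ := Finset.exists_subset_card_eq (show a ≤ I.card by omega)
  refine ⟨I₁, I \ I₁, hc.ge, ?_, Finset.disjoint_sdiff, Finset.union_sdiff_of_subset hI₁⟩
  rw [Finset.card_sdiff_of_subset hI₁]
  omega

variable {R : Type*} [CommRing R] {A : Type*} [Ring A] [Algebra R A] {K : ℕ} {t : Fin K → R}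
  (h2 : (2 : R) = 0) (ht : ∀ i, t i * t i = 0)
include h2 ht

theorem exists_elem {L : AddSubgroup A} {I : Finset (Fin K)} (hI : 1 ≤ I.card) {x : A}
    (hx : x ∈ L) : ∃ g : ↥(Gam t 1 L), ((g : Aˣ) : A) = 1 + tI t I • x :=
  ⟨⟨mkU h2 (tI_sq ht hI) x, Subgroup.subset_closure ⟨I, hI, x, hx, mkU_val _ _ _⟩⟩, rfl⟩

theorem comm_elem {L : AddSubgroup A} {I₁ I₂ : Finset (Fin K)} (hI₁ : 1 ≤ I₁.card)
    (hI₂ : 1 ≤ I₂.card) (hd : Disjoint I₁ I₂) {x y : A} {g₁ g₂ g : ↥(Gam t 1 L)}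
    (h₁ : ((g₁ : Aˣ) : A) = 1 + tI t I₁ • x) (h₂ : ((g₂ : Aˣ) : A) = 1 + tI t I₂ • y)
    (h : ((g : Aˣ) : A) = 1 + tI t (I₁ ∪ I₂) • br x y) : ⁅g₁, g₂⁆ = g := by
  apply Subtype.ext
  apply Units.ext
  rw [h, ← tI_mul_of_disjoint t hd, ← comm_val h2 (tI_sq ht hI₁) (tI_sq ht hI₂) h₁ h₂]
  rfl

theorem lower_one {L : AddSubgroup A} (S : Subgroup ↥(Gam t 1 L)) (M : ℕ) (hM : 1 ≤ M) (e z : A)
    (he : e ∈ L) (hz : z ∈ L) (hze : br z e = e)
    (hSe : ∀ I : Finset (Fin K), M ≤ I.card → ∀ g : ↥(Gam t 1 L),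
      ((g : Aˣ) : A) = 1 + tI t I • e → g ∈ S)
    (hSz : ∀ I : Finset (Fin K), M ≤ I.card → ∀ g : ↥(Gam t 1 L),
      ((g : Aˣ) : A) = 1 + tI t I • z → g ∈ S) (c : ℕ) :
    ∀ I : Finset (Fin K), (c + 1) * M ≤ I.card → ∀ g : ↥(Gam t 1 L),
      ((g : Aˣ) : A) = 1 + tI t I • e →
      g ∈ (fun N : Subgroup ↥(Gam t 1 L) => ⁅N, S⁆)^[c] S := by
  induction c with
  | zero =>
    intro I hI g hg
    exact hSe I (by simpa using hI) g hg
  | succ c ih =>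
    intro I hI g hg
    rw [Function.iterate_succ_apply']
    have hI' : (c + 1) * M + M ≤ I.card := by
      have : (c + 1 + 1) * M = (c + 1) * M + M := by ring
      rw [this] at hI; exact hI
    obtain ⟨I₁, I₂, h₁, h₂, hd, rfl⟩ := split_card hI'
    have hM1 : 1 ≤ (c + 1) * M := by
      calc 1 ≤ M := hM
        _ ≤ (c + 1) * M := Nat.le_mul_of_pos_left M (by omega)
    obtain ⟨g₁, hg₁⟩ := exists_elem h2 ht (hM1.trans h₁) he
    obtain ⟨g₂, hg₂⟩ := exists_elem h2 ht (hM.trans h₂) hz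
    have hbr : br e z = e := by rw [br_swap, hze, neg_A h2]
    have e1 : ⁅g₁, g₂⁆ = g :=
      comm_elem h2 ht (hM1.trans h₁) (hM.trans h₂) hd hg₁ hg₂ (by rw [hbr]; exact hg)
    rw [← e1]
    exact Subgroup.commutator_mem_commutator (ih I₁ h₁ g₁ hg₁) (hSz I₂ h₂ g₂ hg₂)

theorem lower {L : AddSubgroup A} (hbr : ∀ x ∈ L, ∀ y ∈ L, br x y ∈ L) (c k : ℕ)
    (s : ℕ → Subgroup ↥(Gam t 1 L)) (hk : s k = ⊤)
    (hc : ∀ i, i < k →
      (fun N : Subgroup ↥(Gam t 1 L) => ⁅N, s (i + 1)⁆)^[c] (s (i + 1)) ≤ s i) :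
    ∀ j, j ≤ k → ∀ x ∈ Deep L j, ∀ I : Finset (Fin K), (2 * (c + 1)) ^ j ≤ I.card →
      ∀ g : ↥(Gam t 1 L), ((g : Aˣ) : A) = 1 + tI t I • x → g ∈ s (k - j) := by
  intro j
  induction j with
  | zero =>
    intro _ x _ I _ g _
    rw [Nat.sub_zero, hk]
    exact Subgroup.mem_top g
  | succ j ih =>
    intro hj
    have ih := ih (by omega)
    have hci := hc (k - (j + 1)) (by omega)
    have ek : k - (j + 1) + 1 = k - j := by omega
    rw [ek] at hci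
    set M := (2 * (c + 1)) ^ j with hM
    have hM1 : 1 ≤ M := Nat.one_le_pow _ _ (by omega)
    have key : ∀ x, IsB (Deep L j) x → ∀ I : Finset (Fin K), (c + 1) * M ≤ I.card →
        ∀ g : ↥(Gam t 1 L), ((g : Aˣ) : A) = 1 + tI t I • x → g ∈ s (k - (j + 1)) := by
      rintro x ⟨hx, z, hz, hzx⟩ I hI g hg
      exact hci (lower_one h2 ht (s (k - j)) M hM1 x z (deep_mem hbr j x hx) (deep_mem hbr j z hz)
        hzx (ih x hx) (ih z hz) c I hI g hg)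
    have hsucc : (2 * (c + 1)) ^ (j + 1) = (c + 1) * M + (c + 1) * M := by
      rw [pow_succ]; ring
    rw [hsucc]
    rintro x (hx | ⟨e₁, e₂, he₁, he₂, rfl⟩) I hI g hg
    · exact key x hx I (by omega) g hg
    · obtain ⟨I₁, I₂, h₁, h₂, hd, rfl⟩ := split_card hI
      have hM2 : 1 ≤ (c + 1) * M := by
        calc 1 ≤ M := hM1
          _ ≤ (c + 1) * M := Nat.le_mul_of_pos_left M (by omega)
      obtain ⟨g₁, hg₁⟩ := exists_elem h2 ht (hM2.trans h₁) (deep_mem hbr j e₁ he₁.1)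
      obtain ⟨g₂, hg₂⟩ := exists_elem h2 ht (hM2.trans h₂) (deep_mem hbr j e₂ he₂.1)
      have e1 : ⁅g₁, g₂⁆ = g :=
        comm_elem h2 ht (hM2.trans h₁) (hM2.trans h₂) hd hg₁ hg₂ hg
      rw [← e1, commutatorElement_def]
      have a1 := key e₁ he₁ I₁ h₁ g₁ hg₁
      have a2 := key e₂ he₂ I₂ h₂ g₂ hg₂
      exact mul_mem (mul_mem (mul_mem a1 a2) (inv_mem a1)) (inv_mem a2)

theorem lower_final {L : AddSubgroup A} (hbr : ∀ x ∈ L, ∀ y ∈ L, br x y ∈ L) (c k : ℕ)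
    (s : ℕ → Subgroup ↥(Gam t 1 L)) (h0 : s 0 = ⊥) (hk : s k = ⊤)
    (hc : ∀ i, i < k →
      (fun N : Subgroup ↥(Gam t 1 L) => ⁅N, s (i + 1)⁆)^[c] (s (i + 1)) ≤ s i)
    (hK : (2 * (c + 1)) ^ k ≤ K) (x : A) (hx : x ∈ Deep L k) :
    tI t Finset.univ • x = 0 := by
  have hcard : (2 * (c + 1)) ^ k ≤ (Finset.univ : Finset (Fin K)).card := by
    rw [Finset.card_univ, Fintype.card_fin]; exact hK
  have h1 : 1 ≤ (Finset.univ : Finset (Fin K)).card :=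
    (Nat.one_le_pow _ _ (by omega)).trans hcard
  obtain ⟨g, hg⟩ := exists_elem h2 ht h1 (deep_mem hbr k x hx)
  have := lower h2 ht hbr c k s hk hc k le_rfl x hx Finset.univ hcard g hg
  rw [Nat.sub_self, h0, Subgroup.mem_bot] at this
  rw [this] at hg
  have h3 : (1 : A) = 1 + tI t Finset.univ • x := hg
  exact (left_eq_add.mp h3)

end Pool.Agent.LibFPF
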