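import Mathlib

set_option autoImplicit false

namespace Pool.Agent.LibFPF

open Finset

theorem eps_mul_inl {R : Type} [CommRing R] (x : R)
    (h : (DualNumber.eps : DualNumber R) * TrivSqZeroExt.inlHom R R x = 0) : x = 0 := by
  have := congrArg TrivSqZeroExt.snd h
  simpa using this

theorem field_case (p : ℕ) [Fact p.Prime] (hp2 : p ≠ 2) (F : Type) [Field F] [Finite F]
    (hcard : Nat.card F = 2 ^ (p - 1)) :
    ∃ χ : AddChar (ZMod p) F, ∀ c : ZMod p, c ≠ 0 → ∑ j, χ (j * c) = 0 := by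
  have hp : p.Prime := Fact.out
  have hcardU : Nat.card Fˣ = 2 ^ (p - 1) - 1 := by
    rw [Nat.card_units, hcard]
  have hdvd : p ∣ Nat.card Fˣ := by
    rw [hcardU]
    have hco : Nat.Coprime 2 p := by
      rw [Nat.coprime_primes Nat.prime_two hp]; exact fun h => hp2 h.symm
    have := Nat.ModEq.pow_totient hco
    rw [Nat.totient_prime hp] at this
    exact (Nat.modEq_iff_dvd' (Nat.one_le_two_pow)).mp this.symm
  obtain ⟨ζ, hζ⟩ := exists_prime_orderOf_dvd_card' p hdvd
  have hζ1 : ((ζ : F)) ^ p = 1 := by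
    rw [← Units.val_pow_eq_pow_val]
    have : ζ ^ p = 1 := orderOf_dvd_iff_pow_eq_one.mp (by rw [hζ])
    rw [this, Units.val_one]
  let χ : AddChar (ZMod p) F := AddChar.zmodChar p hζ1
  have hχ : χ ≠ 1 := by
    intro h
    have h1 : χ 1 = 1 := by rw [h]; rfl
    have h3 : χ 1 = (ζ : F) := by
      have := AddChar.zmodChar_apply' hζ1 1
      simpa using this
    rw [h3] at h1
    have h4 : ζ = 1 := Units.ext h1
    rw [h4, orderOf_one] at hζ
    exact hp.one_lt.ne hζ
  refine ⟨χ, ?_⟩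
  intro c hc
  have e : ∑ j, χ (j * c) = ∑ j, χ j :=
    Fintype.sum_equiv (Equiv.mulRight₀ c hc) _ _ (fun j => by simp)
  rw [e]
  exact AddChar.sum_eq_zero_of_ne_one hχ

theorem ring_exists (p : ℕ) [Fact p.Prime] (hp2 : p ≠ 2) : ∀ K : ℕ,
    ∃ (R : Type) (_ : CommRing R) (_ : Finite R) (χ : AddChar (ZMod p) R) (t : Fin K → R),
      (2 : R) = 0 ∧ (∀ c : ZMod p, c ≠ 0 → ∑ j, χ (j * c) = 0) ∧ (∀ i, t i * t i = 0) ∧
      ∏ i, t i ≠ 0 := by
  intro K
  induction K with
  | zero =>
    have hp : p.Prime := Fact.out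
    haveI : Fact (Nat.Prime 2) := ⟨Nat.prime_two⟩
    have hp1 : p - 1 ≠ 0 := by have := hp.two_le; omega
    obtain ⟨χ, hχ⟩ := field_case p hp2 (GaloisField 2 (p - 1)) (GaloisField.card 2 (p - 1) hp1)
    have h2 : (2 : GaloisField 2 (p - 1)) = 0 := by
      have := CharP.cast_eq_zero (GaloisField 2 (p - 1)) 2
      simpa using this
    exact ⟨GaloisField 2 (p - 1), inferInstance, inferInstance, χ, fun i => i.elim0, h2, hχ,
      fun i => i.elim0, by simp⟩
  | succ K ih =>
    obtain ⟨R, hR, hF, χ, t, h2, hχ, ht, hprod⟩ := ih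
    haveI : Finite (DualNumber R) := inferInstanceAs (Finite (R × R))
    let ι : R →+* DualNumber R := TrivSqZeroExt.inlHom R R
    refine ⟨DualNumber R, inferInstance, inferInstance, (ι : R →* DualNumber R).compAddChar χ,
      Fin.cons DualNumber.eps (fun i => ι (t i)), ?_, ?_, ?_, ?_⟩
    · have : ι 2 = 2 := map_ofNat ι 2
      rw [← this, h2, map_zero]
    · intro c hc
      change ∑ j, ι (χ (j * c)) = 0
      rw [← map_sum, hχ c hc, map_zero]
    · intro i
      refine Fin.cases ?_ (fun i => ?_) i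
      · simp
      · simp only [Fin.cons_succ]
        rw [← map_mul, ht, map_zero]
    · rw [Fin.prod_univ_succ]
      simp only [Fin.cons_zero, Fin.cons_succ]
      rw [← map_prod]
      intro h
      exact hprod (eps_mul_inl _ h)

end Pool.Agent.LibFPF
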