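import Pool.Agent.LibFPF.Fixed
import Pool.Agent.LibFPF.RingEx
import Pool.Agent.LibFPF.Faith
import Pool.Agent.LibFPF.Lower

set_option autoImplicit false

namespace Pool.Agent.LibFPF

open Finset
open scoped commutatorElement

/-- Natural number weights on the next level. -/
def nwt {B : Type} [Fintype B] [DecidableEq B] (wt : B → ℕ) : Nx B → ℕ :=
  fun s => 1 + ∑ i ∈ s, wt i.1

theorem nwt_cast {p : ℕ} {B : Type} [Fintype B] [DecidableEq B] (wt : B → ℕ) :
    (fun s => ((nwt wt s : ℕ) : ZMod p)) = nw (fun b => ((wt b : ℕ) : ZMod p)) := by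
  funext s; simp [nwt, nw]

theorem nwt_ge {B : Type} [Fintype B] [DecidableEq B] (wt : B → ℕ) (b : B) :
    nwt wt {(b, false)} = 1 + wt b := by
  simp [nwt]

theorem cast_ne {p : ℕ} {B : Type} (wt : B → ℕ) (h0 : ∀ b, 0 < wt b) (h1 : ∀ b, wt b < p)
    (b : B) : ((wt b : ℕ) : ZMod p) ≠ 0 := by
  intro h
  rw [ZMod.natCast_eq_zero_iff] at h
  exact absurd (Nat.le_of_dvd (h0 b) h) (not_le.mpr (h1 b))

theorem exists_level (ℓ : ℕ) : ∃ (B : Type) (_ : Fintype B) (_ : DecidableEq B) (_ : Nonempty B)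
    (wt : B → ℕ), (∀ b, 0 < wt b) ∧ ∀ (p : ℕ) [Fact p.Prime], (∀ b, wt b < p) →
      ∀ (R : Type) [CommRing R] (χ : AddChar (ZMod p) R), (2 : R) = 0 →
        (∀ c : ZMod p, c ≠ 0 → ∑ j, χ (j * c) = 0) →
        ∃ L : AddSubgroup (Alg p R B), Lev (fun b => ((wt b : ℕ) : ZMod p)) χ ℓ L := by
  induction ℓ with
  | zero =>
    exact ⟨Unit, inferInstance, inferInstance, inferInstance, fun _ => 1, fun _ => one_pos,
      fun p _ _ R _ χ _ _ => ⟨⊥, lev_bot _ χ⟩⟩
  | succ ℓ ih =>
    obtain ⟨B, hB1, hB2, hB3, wt, hwt, hL⟩ := ih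
    refine ⟨Nx B, inferInstance, inferInstance, ⟨∅⟩, nwt wt, fun b => ?_, ?_⟩
    · unfold nwt; omega
    · intro p hp hlt R hR χ h2 hχ
      have hlt' : ∀ b, wt b < p := by
        intro b
        have := hlt {(b, false)}
        rw [nwt_ge] at this
        omega
      obtain ⟨L, hLev⟩ := hL p hlt' R χ h2 hχ
      refine ⟨ext L, ?_⟩
      rw [nwt_cast]
      exact hLev.next _ χ h2 one_ne_zero (cast_ne wt hwt hlt') hχ

section aut

variable {p : ℕ} [NeZero p] {R : Type} [CommRing R] {B : Type} [Fintype B] [DecidableEq B]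
  (w : B → ZMod p) (χ : AddChar (ZMod p) R) {K : ℕ} (t : Fin K → R)
  (L : AddSubgroup (Alg p R B)) (hst : ∀ v, ∀ x ∈ L, act w χ v x ∈ L)

/-- The action on the group. -/
def actG (v : ZMod p × ZMod p) : ↥(Gam t 1 L) →* ↥(Gam t 1 L) :=
  resM t (act w χ v) (act_smul w χ v) 1 L (hst v)

theorem actG_val (v : ZMod p × ZMod p) (g : ↥(Gam t 1 L)) :
    ((actG w χ t L hst v g : (Alg p R B)ˣ) : Alg p R B)
      = act w χ v ((g : (Alg p R B)ˣ) : Alg p R B) := rfl

theorem actG_zero (g : ↥(Gam t 1 L)) : actG w χ t L hst 0 g = g := by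
  apply Subtype.ext
  apply Units.ext
  rw [actG_val, act_zero]

theorem actG_add (u v : ZMod p × ZMod p) (g : ↥(Gam t 1 L)) :
    actG w χ t L hst (u + v) g = actG w χ t L hst u (actG w χ t L hst v g) := by
  apply Subtype.ext
  apply Units.ext
  rw [actG_val, actG_val, actG_val, act_add]

/-- The action as a homomorphism to the automorphism group. -/
def Phi : Multiplicative (ZMod p × ZMod p) →* MulAut ↥(Gam t 1 L) where
  toFun v :=
    { toFun := actG w χ t L hst v.toAdd
      invFun := actG w χ t L hst (-v.toAdd)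
      left_inv := fun g => by rw [← actG_add, neg_add_cancel, actG_zero]
      right_inv := fun g => by rw [← actG_add, add_neg_cancel, actG_zero]
      map_mul' := map_mul _ }
  map_one' := MulEquiv.ext fun g => actG_zero w χ t L hst g
  map_mul' u v := MulEquiv.ext fun g => actG_add w χ t L hst u.toAdd v.toAdd g

theorem Phi_apply (v : Multiplicative (ZMod p × ZMod p)) (g : ↥(Gam t 1 L)) :
    Phi w χ t L hst v g = actG w χ t L hst v.toAdd g := rfl

end aut

/-- The main construction: for every `f` there is a prime `p` such that for every `c` there is a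
finite group `G` of derived length at most `2 (f + 1)` with a fixed point free elementary abelian
group of automorphisms of order `p ^ 2`, without a normal series of length at most `f` with
factors of class at most `c`. -/
theorem main (f : ℕ) : ∃ p : ℕ, p.Prime ∧ ∀ c : ℕ, ∃ (G : Type) (_ : Group G) (_ : Finite G),
    derivedSeries G (2 * (f + 1)) = ⊥ ∧
    ∃ A : Subgroup (MulAut G), Nat.card (↥A) = p ^ 2 ∧ (∀ a ∈ A, a ^ p = 1) ∧
      (∀ a ∈ A, ∀ b ∈ A, a * b = b * a) ∧
      (∀ g : G, (∀ a ∈ A, a g = g) → g = 1) ∧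
      ¬ ∃ k : ℕ, k ≤ f ∧ ∃ s : ℕ → Subgroup G,
            s 0 = ⊥ ∧ s k = ⊤ ∧
            (∀ i, (s i).Normal) ∧
            (∀ i, i < k → s i ≤ s (i + 1)) ∧
            (∀ i, i < k →
              (fun L : Subgroup G => ⁅L, s (i + 1)⁆)^[c] (s (i + 1)) ≤ s i) := by
  obtain ⟨B, hB1, hB2, hB3, wt, hwt, hL⟩ := exists_level f
  obtain ⟨p, hpge, hp⟩ := Nat.exists_infinite_primes (3 + ∑ b, wt b)
  haveI : Fact p.Prime := ⟨hp⟩
  have hlt : ∀ b, wt b < p := by
    intro b
    have := Finset.single_le_sum (f := wt) (fun i _ => Nat.zero_le _) (Finset.mem_univ b)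
    omega
  have hp2 : p ≠ 2 := by
    intro h; omega
  refine ⟨p, hp, fun c => ?_⟩
  set K := (2 * (c + 1)) ^ f with hK
  obtain ⟨R, hR, hFin, χ, t, h2, hχ, ht, hprod⟩ := ring_exists p hp2 K
  obtain ⟨L', hLev'⟩ := hL p hlt R χ h2 hχ
  set w : B → ZMod p := fun b => ((wt b : ℕ) : ZMod p) with hw
  have hw0 : ∀ b, w b ≠ 0 := cast_ne wt hwt hlt
  have hLev := hLev'.next w χ h2 one_ne_zero hw0 hχ
  obtain ⟨b₀⟩ := hB3
  haveI : Finite (Matrix (Nx B) (Nx B) R) := inferInstanceAs (Finite (Nx B → Nx B → R))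
  haveI : Finite (Alg p R (Nx B)) := inferInstanceAs (Finite (ZMod p → Matrix (Nx B) (Nx B) R))
  haveI : Finite (Alg p R (Nx B))ˣ := inferInstance
  let Φ := Phi (nw w) χ t (ext L') hLev.stab
  have hone : 1 ≤ (Finset.univ : Finset (Fin K)).card := by
    rw [Finset.card_univ, Fintype.card_fin]
    exact Nat.one_le_pow _ _ (by omega)
  have hΦinj : Function.Injective Φ := by
    rw [injective_iff_map_eq_one]
    intro v hv
    by_contra hne
    have hv0 : v.toAdd ≠ 0 := fun h => hne (by rw [← ofAdd_toAdd v, h, ofAdd_zero])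
    obtain ⟨g, hg⟩ := exists_elem h2 ht hone (X_mem_ext L' (bv (R := R) (0 : ZMod p) b₀))
    have e1 : Φ v g = g := by rw [hv]; rfl
    have e2 : act (nw w) χ v.toAdd ((g : (Alg p R (Nx B))ˣ) : Alg p R (Nx B))
        = ((g : (Alg p R (Nx B))ˣ) : Alg p R (Nx B)) :=
      congrArg (fun h : ↥(Gam t 1 (ext L')) => ((h : (Alg p R (Nx B))ˣ) : Alg p R (Nx B))) e1
    rw [hg, map_add, map_one, act_smul] at e2
    have e3 := add_left_cancel e2
    exact hprod (faithful hp2 h2 w hw0 χ hχ v.toAdd hv0 b₀ _ e3)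
  refine ⟨↥(Gam t 1 (ext L')), inferInstance, inferInstance,
    derived_bot h2 ht (2 * (f + 1)) (ext L') hLev.solv, Φ.range, ?_, ?_, ?_, ?_, ?_⟩
  · rw [← Nat.card_congr (MonoidHom.ofInjective hΦinj).toEquiv]
    change Nat.card (ZMod p × ZMod p) = p ^ 2
    rw [Nat.card_prod, Nat.card_zmod, pow_two]
  · rintro _ ⟨v, rfl⟩
    rw [← map_pow]
    have : v ^ p = 1 := by
      apply Multiplicative.toAdd.injective
      rw [toAdd_pow, toAdd_one]
      ext <;> simp
    rw [this, map_one]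
  · rintro _ ⟨v, rfl⟩ _ ⟨u, rfl⟩
    rw [← map_mul, ← map_mul, mul_comm]
  · intro g hg
    have hodd : Odd (Fintype.card (ZMod p × ZMod p)) := by
      rw [Fintype.card_prod, ZMod.card]
      exact (hp.odd_of_ne_two hp2).mul (hp.odd_of_ne_two hp2)
    have := fixed_Gam_one h2 ht hodd (act (nw w) χ) (act_smul (nw w) χ) (ext L') hLev.brk
      hLev.stab hLev.tr g.1 g.2 (fun v => by
        have := hg (Φ (Multiplicative.ofAdd v)) ⟨_, rfl⟩
        exact congrArg Subtype.val this)
    exact Subtype.ext this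
  · rintro ⟨k, hk, s, s0, sk, -, -, hc⟩
    have hle : (2 * (c + 1)) ^ k ≤ K := Nat.pow_le_pow_right (by omega) hk
    have h3 := lower_final h2 ht hLev.brk c k s s0 sk hc hle _ (hLev.deep k (by omega) 0)
    have h4 := congrFun (congrFun (congrFun h3 0) ∅) ∅
    have h5 : (Pi.single (0 : ZMod p) (1 : R) : ZMod p → R) (0 + 1) = 0 := by
      rw [Pi.single_apply, if_neg]; simp
    simp only [Pi.smul_apply, Matrix.smul_apply, opZ, h5, Pi.single_eq_same, add_zero, one_smul,
      Matrix.one_apply_eq, smul_eq_mul, mul_one] at h4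
    exact hprod h4

end Pool.Agent.LibFPF
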