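import Pool.Agent.LibFPF.Gamma

set_option autoImplicit false

namespace Pool.Agent.LibFPF

open Finset
open scoped commutatorElement

theorem fixed_step {M Q V : Type*} [Group M] [CommGroup Q] [Fintype V] (ρ : M →* Q)
    (α : V → M →* M) (S : Set M) (hS : Subgroup.closure S = ⊤)
    (h1 : ∀ s ∈ S, ∏ v, ρ (α v s) = 1) (h2 : ∀ s ∈ S, s * s = 1)
    (hodd : Odd (Fintype.card V)) (g : M) (hg : ∀ v, α v g = g) : ρ g = 1 := by
  have e1 : (∏ v, ρ.comp (α v)) = 1 := by
    refine MonoidHom.eq_of_eqOn_dense hS ?_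
    intro s hs
    rw [MonoidHom.finsetProd_apply]
    exact h1 s hs
  have e2 : (powMonoidHom 2).comp ρ = 1 := by
    refine MonoidHom.eq_of_eqOn_dense hS ?_
    intro s hs
    have : ρ s * ρ s = 1 := by rw [← map_mul, h2 s hs, map_one]
    simpa [pow_two] using this
  have f1 : ρ g ^ Fintype.card V = 1 := by
    have := DFunLike.congr_fun e1 g
    rw [MonoidHom.finsetProd_apply] at this
    simpa [hg] using this
  have f2 : ρ g ^ 2 = 1 := by
    have := DFunLike.congr_fun e2 g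
    simpa using this
  obtain ⟨k, hk⟩ := hodd
  rw [hk, pow_add, pow_mul, f2, one_pow, one_mul, pow_one] at f1
  exact f1

variable {R : Type*} [CommRing R] {A : Type*} [Ring A] [Algebra R A] {K : ℕ} (t : Fin K → R)

theorem Gam_stable (β : A →+* A) (hβ : ∀ (r : R) (x : A), β (r • x) = r • β x) (m : ℕ)
    (L : AddSubgroup A) (hL : ∀ x ∈ L, β x ∈ L) :
    ∀ g ∈ Gam t m L, Units.map (β : A →* A) g ∈ Gam t m L := by
  intro g hg
  rw [Gam] at hg
  induction hg using Subgroup.closure_induction with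
  | mem x hx =>
    obtain ⟨I, hI, y, hy, h⟩ := hx
    apply Subgroup.subset_closure
    refine ⟨I, hI, β y, hL y hy, ?_⟩
    rw [Units.coe_map]
    change β (x : A) = _
    rw [h, map_add, map_one, hβ]
  | one => rw [map_one]; exact one_mem _
  | mul x y _ _ hx hy => rw [map_mul]; exact mul_mem hx hy
  | inv x _ hx => rw [map_inv]; exact inv_mem hx

/-- Restriction of a ring endomorphism to the group. -/
def resM (β : A →+* A) (hβ : ∀ (r : R) (x : A), β (r • x) = r • β x) (m : ℕ)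
    (L : AddSubgroup A) (hL : ∀ x ∈ L, β x ∈ L) : ↥(Gam t m L) →* ↥(Gam t m L) :=
  ((Units.map (β : A →* A)).comp (Gam t m L).subtype).codRestrict (Gam t m L)
    (fun g => Gam_stable t β hβ m L hL g.1 g.2)

theorem resM_val (β : A →+* A) (hβ : ∀ (r : R) (x : A), β (r • x) = r • β x) (m : ℕ)
    (L : AddSubgroup A) (hL : ∀ x ∈ L, β x ∈ L) (g : ↥(Gam t m L)) :
    (resM t β hβ m L hL g : Aˣ) = Units.map (β : A →* A) (g : Aˣ) := rfl

variable (h2 : (2 : R) = 0) {t} (ht : ∀ i, t i * t i = 0)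

/-- The hom from the additive group. -/
def addHom (m : ℕ) (hm : 1 ≤ m) (L : AddSubgroup A) (I : Finset (Fin K)) (hI : m ≤ I.card) :
    Multiplicative ↥L →* ↥(Gam t m L) where
  toFun x := ⟨mkU h2 (tI_sq ht (hm.trans hI)) (x.toAdd : A),
    Subgroup.subset_closure ⟨I, hI, _, (x.toAdd).2, mkU_val _ _ _⟩⟩
  map_one' := by
    ext
    change 1 + tI t I • (0 : A) = 1
    simp
  map_mul' x y := by
    apply Subtype.ext
    apply Units.ext
    change 1 + tI t I • ((x.toAdd : A) + (y.toAdd : A)) = _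
    rw [← mul_val (tI_sq ht (hm.trans hI)) (mkU_val h2 (tI_sq ht (hm.trans hI)) (x.toAdd : A))
      (mkU_val h2 (tI_sq ht (hm.trans hI)) (y.toAdd : A))]
    rfl

theorem addHom_val (m : ℕ) (hm : 1 ≤ m) (L : AddSubgroup A) (I : Finset (Fin K))
    (hI : m ≤ I.card) (x : Multiplicative ↥L) :
    ((addHom h2 ht m hm L I hI x : Aˣ) : A) = 1 + tI t I • (x.toAdd : A) := rfl

include h2 ht

theorem fixed_Gam {V : Type*} [Fintype V] (hodd : Odd (Fintype.card V)) (α : V → (A →+* A))
    (hα : ∀ v (r : R) (x : A), α v (r • x) = r • α v x) (L : AddSubgroup A)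
    (hbr : ∀ x ∈ L, ∀ y ∈ L, br x y ∈ L) (hst : ∀ v, ∀ x ∈ L, α v x ∈ L)
    (htr : ∀ x ∈ L, ∑ v, α v x = 0) (m : ℕ) (hm : 1 ≤ m) (g : Aˣ) (hg : g ∈ Gam t m L)
    (hfix : ∀ v, Units.map (α v : A →* A) g = g) : g ∈ Gam t (m + 1) L := by
  set M := Gam t m L with hM
  set N := Gam t (m + 1) L with hN
  have hcomm : ∀ a ∈ M, ∀ b ∈ M, ⁅a, b⁆ ∈ N := by
    have h0 : ⁅M, M⁆ ≤ N :=
      (comm_Gam h2 ht hm hm hbr hbr hbr).trans (Gam_mono t (by omega) le_rfl)
    intro a ha b hb
    exact h0 (Subgroup.commutator_mem_commutator ha hb)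
  have hNM : N ≤ M := Gam_mono t (by omega) le_rfl
  let N' : Subgroup ↥M := N.subgroupOf M
  have hcomm' : ∀ a b : ↥M, ⁅a, b⁆ ∈ N' := by
    intro a b
    rw [Subgroup.mem_subgroupOf]
    exact hcomm a a.2 b b.2
  haveI : N'.Normal := by
    constructor
    intro n hn g
    have e : g * n * g⁻¹ = ⁅g, n⁆ * n := by rw [commutatorElement_def]; group
    rw [e]
    exact mul_mem (hcomm' _ _) hn
  letI : CommGroup (↥M ⧸ N') :=
    { (inferInstance : Group (↥M ⧸ N')) with
      mul_comm := by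
        intro a b
        obtain ⟨a, rfl⟩ := QuotientGroup.mk'_surjective N' a
        obtain ⟨b, rfl⟩ := QuotientGroup.mk'_surjective N' b
        rw [← map_mul, ← map_mul]
        change QuotientGroup.mk _ = QuotientGroup.mk _
        rw [QuotientGroup.eq]
        have e : (a * b)⁻¹ * (b * a) = ⁅b⁻¹, a⁻¹⁆ := by
          rw [commutatorElement_def]; group
        rw [e]
        exact hcomm' _ _ }
  let ρ : ↥M →* (↥M ⧸ N') := QuotientGroup.mk' N'
  let αM : V → (↥M →* ↥M) := fun v => resM t (α v) (hα v) m L (hst v)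
  let S : Set ↥M := {s | (s : Aˣ) ∈ genS t m L}
  have hS : Subgroup.closure S = ⊤ := Subgroup.closure_closure_coe_preimage
  have hρ : ρ ⟨g, hg⟩ = 1 := by
    refine fixed_step ρ αM S hS ?_ ?_ hodd ⟨g, hg⟩ ?_
    · rintro s ⟨I, hI, x, hx, hs⟩
      have e1 : ∀ v, αM v s = addHom h2 ht m hm L I hI (Multiplicative.ofAdd ⟨α v x, hst v x hx⟩) := by
        intro v
        apply Subtype.ext
        apply Units.ext
        rw [addHom_val]
        change α v ((s : Aˣ) : A) = 1 + tI t I • α v x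
        rw [hs, map_add, map_one, hα]
      have e2 : ∀ v, ρ (αM v s) = (ρ.comp (addHom h2 ht m hm L I hI))
          (Multiplicative.ofAdd ⟨α v x, hst v x hx⟩) := by
        intro v; rw [e1]; rfl
      rw [Finset.prod_congr rfl fun v _ => e2 v, ← map_prod, ← ofAdd_sum]
      have e3 : (∑ v, (⟨α v x, hst v x hx⟩ : ↥L)) = 0 := by
        apply Subtype.ext
        rw [AddSubgroup.val_finset_sum]
        exact htr x hx
      rw [e3, ofAdd_zero, map_one]
    · rintro s ⟨I, hI, x, hx, hs⟩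
      apply Subtype.ext
      exact sq_eq_one h2 (tI_sq ht (hm.trans hI)) hs
    · intro v
      apply Subtype.ext
      exact hfix v
  have := (QuotientGroup.eq_one_iff (N := N') (⟨g, hg⟩ : ↥M)).mp hρ
  rw [Subgroup.mem_subgroupOf] at this
  exact this

theorem fixed_Gam_one {V : Type*} [Fintype V] (hodd : Odd (Fintype.card V)) (α : V → (A →+* A))
    (hα : ∀ v (r : R) (x : A), α v (r • x) = r • α v x) (L : AddSubgroup A)
    (hbr : ∀ x ∈ L, ∀ y ∈ L, br x y ∈ L) (hst : ∀ v, ∀ x ∈ L, α v x ∈ L)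
    (htr : ∀ x ∈ L, ∑ v, α v x = 0) (g : Aˣ) (hg : g ∈ Gam t 1 L)
    (hfix : ∀ v, Units.map (α v : A →* A) g = g) : g = 1 := by
  have key : ∀ m : ℕ, g ∈ Gam t (m + 1) L := by
    intro m
    induction m with
    | zero => exact hg
    | succ m ih =>
      exact fixed_Gam h2 ht hodd α hα L hbr hst htr (m + 1) (by omega) g ih hfix
  have := key K
  rw [Gam_top t (K + 1) (by omega), Subgroup.mem_bot] at this
  exact this

end Pool.Agent.LibFPF
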