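import Mathlib

set_option autoImplicit false

namespace Pool.Agent.LibFPF

open Finset

/-! The commutator in an associative ring. -/

section Br

variable {A : Type*} [Ring A]

/-- The commutator of two elements of an associative ring. -/
def br (a b : A) : A := a * b - b * a

theorem br_add_left (a b c : A) : br (a + b) c = br a c + br b c := by
  simp only [br]; noncomm_ring

theorem br_add_right (a b c : A) : br a (b + c) = br a b + br a c := by
  simp only [br]; noncomm_ring

theorem br_neg_left (a b : A) : br (-a) b = - br a b := by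
  simp only [br]; noncomm_ring

theorem br_neg_right (a b : A) : br a (-b) = - br a b := by
  simp only [br]; noncomm_ring

theorem br_swap (a b : A) : br a b = - br b a := by
  simp only [br]; noncomm_ring

theorem br_zero_left (a : A) : br 0 a = 0 := by simp [br]
theorem br_zero_right (a : A) : br a 0 = 0 := by simp [br]

theorem br_mul_left (a b c : A) : br (a * b) c = a * br b c + br a c * b := by
  simp only [br]; noncomm_ring

theorem br_mul_right (a b c : A) : br a (b * c) = br a b * c + b * br a c := by
  simp only [br]; noncomm_ring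

theorem br_sum_left {ι : Type*} (s : Finset ι) (f : ι → A) (b : A) :
    br (∑ i ∈ s, f i) b = ∑ i ∈ s, br (f i) b := by
  simp [br, Finset.sum_mul, Finset.mul_sum, Finset.sum_sub_distrib]

theorem br_sum_right {ι : Type*} (s : Finset ι) (f : ι → A) (b : A) :
    br b (∑ i ∈ s, f i) = ∑ i ∈ s, br b (f i) := by
  simp [br, Finset.sum_mul, Finset.mul_sum, Finset.sum_sub_distrib]

variable {R : Type*} [CommRing R] [Algebra R A]

theorem br_smul_left (r : R) (a b : A) : br (r • a) b = r • br a b := by
  simp [br, smul_sub]

theorem br_smul_right (r : R) (a b : A) : br a (r • b) = r • br a b := by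
  simp [br, smul_sub]

theorem br_smul_one_left (r : R) (b : A) : br (r • (1 : A)) b = 0 := by
  simp [br]

theorem br_smul_one_right (r : R) (b : A) : br b (r • (1 : A)) = 0 := by
  simp [br]

end Br

/-! Commutation relations in an associative algebra. -/

section CCR

variable {R : Type*} [CommRing R] {A : Type*} [Ring A] [Algebra R A]
  {ι : Type*} [Fintype ι] [DecidableEq ι]

/-- Canonical commutation relations. -/
structure CCR (x y : ι → A) : Prop where
  xx : ∀ a b, br (x a) (x b) = 0
  yy : ∀ a b, br (y a) (y b) = 0
  yx : ∀ a b, br (y a) (x b) = if a = b then 1 else 0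

/-- Linear combination of the `x a`. -/
def lin (x : ι → A) (v : ι → R) : A := ∑ a, v a • x a

/-- Quadratic expression. -/
def quad (x y : ι → A) (M : Matrix ι ι R) : A := ∑ a, ∑ b, M a b • (x a * y b)

omit [DecidableEq ι] in
theorem lin_add (x : ι → A) (v w : ι → R) : lin x (v + w) = lin x v + lin x w := by
  simp [lin, add_smul, Finset.sum_add_distrib]

omit [DecidableEq ι] in
theorem lin_neg (x : ι → A) (v : ι → R) : lin x (-v) = - lin x v := by
  simp [lin]

omit [DecidableEq ι] in
theorem quad_add (x y : ι → A) (M N : Matrix ι ι R) :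
    quad x y (M + N) = quad x y M + quad x y N := by
  simp [quad, add_smul, Finset.sum_add_distrib]

omit [DecidableEq ι] in
theorem quad_sub (x y : ι → A) (M N : Matrix ι ι R) :
    quad x y (M - N) = quad x y M - quad x y N := by
  simp [quad, sub_smul, Finset.sum_sub_distrib]

variable {x y : ι → A} (h : CCR x y)
include h

theorem CCR.br_lin_xx (v w : ι → R) : br (lin x v) (lin x w) = 0 := by
  simp [lin, br_sum_left, br_sum_right, br_smul_left, br_smul_right, h.xx]

theorem CCR.br_lin_yy (v w : ι → R) : br (lin y v) (lin y w) = 0 := by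
  simp [lin, br_sum_left, br_sum_right, br_smul_left, br_smul_right, h.yy]

theorem CCR.br_lin_yx (v w : ι → R) :
    br (lin y v) (lin x w) = (∑ a, v a * w a) • (1 : A) := by
  simp only [lin, br_sum_left, br_sum_right, br_smul_left, br_smul_right, h.yx, smul_ite,
    smul_zero]
  rw [Finset.sum_smul]
  refine Finset.sum_congr rfl fun a _ => ?_
  rw [Finset.sum_eq_single a]
  · rw [if_pos rfl, smul_smul, mul_comm]
  · intro b _ hb; simp [hb]
  · simp

theorem CCR.br_quad_x (M : Matrix ι ι R) (c : ι) : br (quad x y M) (x c) = ∑ a, M a c • x a := by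
  simp only [quad, br_sum_left, br_smul_left, br_mul_left, h.xx, h.yx, zero_mul, add_zero,
    mul_ite, mul_one, mul_zero, smul_ite, smul_zero]
  refine Finset.sum_congr rfl fun a _ => ?_
  simp

theorem CCR.br_quad_y (M : Matrix ι ι R) (c : ι) :
    br (quad x y M) (y c) = - ∑ b, M c b • y b := by
  have : ∀ a, br (x a) (y c) = - if c = a then 1 else 0 := by
    intro a; rw [br_swap, h.yx]
  simp only [quad, br_sum_left, br_smul_left, br_mul_left, h.yy, this, mul_zero, zero_add]
  rw [Finset.sum_comm, ← Finset.sum_neg_distrib]
  refine Finset.sum_congr rfl fun b _ => ?_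
  rw [Finset.sum_eq_single c]
  · simp
  · intro a _ ha; simp [ha.symm]
  · simp

theorem CCR.br_quad_linx (M : Matrix ι ι R) (v : ι → R) :
    br (quad x y M) (lin x v) = lin x (M.mulVec v) := by
  simp only [lin, br_sum_right, br_smul_right, h.br_quad_x, Finset.smul_sum, Matrix.mulVec,
    dotProduct, Finset.sum_smul]
  rw [Finset.sum_comm]
  refine Finset.sum_congr rfl fun a _ => Finset.sum_congr rfl fun b _ => ?_
  rw [smul_smul, mul_comm]

theorem CCR.br_quad_liny (M : Matrix ι ι R) (v : ι → R) :
    br (quad x y M) (lin y v) = - lin y (Matrix.vecMul v M) := by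
  simp only [lin, br_sum_right, br_smul_right, h.br_quad_y, Finset.smul_sum, Matrix.vecMul,
    dotProduct, Finset.sum_smul, smul_neg, Finset.sum_neg_distrib]
  rw [Finset.sum_comm]
  congr 1
  refine Finset.sum_congr rfl fun a _ => Finset.sum_congr rfl fun b _ => ?_
  rw [smul_smul]

theorem CCR.br_quad_quad (M N : Matrix ι ι R) :
    br (quad x y M) (quad x y N) = quad x y (M * N - N * M) := by
  have key : ∀ c d, br (quad x y M) (x c * y d) = (∑ a, M a c • x a) * y d
      - x c * ∑ b, M d b • y b := by
    intro c d
    rw [br_mul_right, h.br_quad_x, h.br_quad_y, mul_neg, sub_eq_add_neg]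
  have e1 : quad x y (M * N) = ∑ c, ∑ d, N c d • ((∑ a, M a c • x a) * y d) := by
    simp only [quad, Matrix.mul_apply, Finset.sum_smul, Finset.sum_mul, Finset.smul_sum,
      smul_mul_assoc, smul_smul]
    rw [Finset.sum_congr rfl fun a _ => Finset.sum_comm]
    rw [Finset.sum_comm]
    refine Finset.sum_congr rfl fun c _ => ?_
    rw [Finset.sum_comm]
    refine Finset.sum_congr rfl fun d _ => Finset.sum_congr rfl fun a _ => ?_
    rw [mul_comm]
  have e2 : quad x y (N * M) = ∑ c, ∑ d, N c d • (x c * ∑ b, M d b • y b) := by
    simp only [quad, Matrix.mul_apply, Finset.sum_smul, Finset.mul_sum, Finset.smul_sum,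
      mul_smul_comm, smul_smul]
    refine Finset.sum_congr rfl fun c _ => ?_
    rw [Finset.sum_comm]
  conv_lhs => rw [show quad x y N = ∑ c, ∑ d, N c d • (x c * y d) from rfl]
  simp only [br_sum_right, br_smul_right, key, smul_sub, Finset.sum_sub_distrib]
  rw [quad_sub, e1, e2]

end CCR

/-! Creation and annihilation operators on functions on finite subsets, characteristic two. -/

section Fock

variable (R : Type*) [CommRing R] {ι : Type*} [Fintype ι] [DecidableEq ι]

/-- Creation operator. -/
def cr (a : ι) : Matrix (Finset ι) (Finset ι) R :=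
  Matrix.of fun s t => if a ∈ s ∧ t = s.erase a then 1 else 0

/-- Annihilation operator. -/
def an (a : ι) : Matrix (Finset ι) (Finset ι) R :=
  Matrix.of fun s t => if a ∉ s ∧ t = insert a s then 1 else 0

variable {R}

theorem cr_mul_apply (a : ι) (M : Matrix (Finset ι) (Finset ι) R) (s u : Finset ι) :
    (cr R a * M) s u = if a ∈ s then M (s.erase a) u else 0 := by
  rw [Matrix.mul_apply]
  by_cases h : a ∈ s
  · simp [cr, h]
  · simp [cr, h]

theorem an_mul_apply (a : ι) (M : Matrix (Finset ι) (Finset ι) R) (s u : Finset ι) :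
    (an R a * M) s u = if a ∉ s then M (insert a s) u else 0 := by
  rw [Matrix.mul_apply]
  by_cases h : a ∈ s
  · simp [an, h]
  · simp [an, h]

omit [Fintype ι] in
theorem cr_apply (a : ι) (s t : Finset ι) :
    (cr R a) s t = if a ∈ s ∧ t = s.erase a then 1 else 0 := rfl

omit [Fintype ι] in
theorem an_apply (a : ι) (s t : Finset ι) :
    (an R a) s t = if a ∉ s ∧ t = insert a s then 1 else 0 := rfl

theorem ccr_fock (h2 : (2 : R) = 0) :
    CCR (A := Matrix (Finset ι) (Finset ι) R) (fun a : ι => cr R a) (fun a => an R a) where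
  xx := by
    intro a b
    rw [br, sub_eq_zero]
    ext s u
    rw [cr_mul_apply, cr_mul_apply]
    by_cases hab : a = b
    · subst hab; rfl
    · by_cases ha : a ∈ s <;> by_cases hb : b ∈ s <;>
        simp [cr_apply, ha, hb, hab, Ne.symm hab, Finset.erase_right_comm (a := a) (b := b)]
  yy := by
    intro a b
    rw [br, sub_eq_zero]
    ext s u
    rw [an_mul_apply, an_mul_apply]
    by_cases hab : a = b
    · subst hab; rfl
    · by_cases ha : a ∈ s <;> by_cases hb : b ∈ s <;>
        simp [an_apply, ha, hb, hab, Ne.symm hab, Finset.insert_comm a b]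
  yx := by
    intro a b
    ext s u
    rw [br, Matrix.sub_apply, an_mul_apply, cr_mul_apply]
    by_cases hab : a = b
    · subst hab
      have h1 : (1 : R) = -1 := by
        have : (1 : R) + 1 = 0 := by rw [← h2]; norm_num
        exact eq_neg_of_add_eq_zero_left this
      by_cases ha : a ∈ s
      · simp [cr_apply, an_apply, ha, Matrix.one_apply]
        by_cases hu : s = u
        · simp [hu, h1.symm]
        · simp [hu, Ne.symm hu]
      · simp [cr_apply, an_apply, ha, Matrix.one_apply]
        by_cases hu : s = u
        · simp [hu]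
        · simp [hu, Ne.symm hu]
    · by_cases ha : a ∈ s <;> by_cases hb : b ∈ s <;>
        simp [cr_apply, an_apply, ha, hb, hab, Ne.symm hab, Finset.erase_insert_of_ne hab]

end Fock

end Pool.Agent.LibFPF
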