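import Pool.Agent.LibFPF.Units

set_option autoImplicit false

namespace Pool.Agent.LibFPF

open Finset
open scoped commutatorElement

variable {R : Type*} [CommRing R] {A : Type*} [Ring A] [Algebra R A] {K : ℕ} (t : Fin K → R)

def genS (m : ℕ) (L : AddSubgroup A) : Set Aˣ :=
  {g | ∃ I : Finset (Fin K), m ≤ I.card ∧ ∃ x ∈ L, (g : A) = 1 + tI t I • x}

/-- The group generated by the elements `1 + t_I x`, with `I` of cardinality at least `m`. -/
def Gam (m : ℕ) (L : AddSubgroup A) : Subgroup Aˣ := Subgroup.closure (genS t m L)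

theorem Gam_mono {m m' : ℕ} (hm : m ≤ m') {L L' : AddSubgroup A} (hL : L' ≤ L) :
    Gam t m' L' ≤ Gam t m L := by
  apply Subgroup.closure_mono
  rintro g ⟨I, hI, x, hx, hg⟩
  exact ⟨I, hm.trans hI, x, hL hx, hg⟩

theorem Gam_bot (m : ℕ) : Gam t m (⊥ : AddSubgroup A) = ⊥ := by
  rw [Gam, Subgroup.closure_eq_bot_iff]
  rintro g ⟨I, hI, x, hx, hg⟩
  rw [AddSubgroup.mem_bot] at hx
  rw [Set.mem_singleton_iff]
  ext
  rw [hg, hx]; simp

theorem Gam_top (m : ℕ) (hm : K < m) (L : AddSubgroup A) : Gam t m L = ⊥ := by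
  rw [Gam, Subgroup.closure_eq_bot_iff]
  rintro g ⟨I, hI, x, hx, hg⟩
  exfalso
  have := Finset.card_le_univ I
  rw [Fintype.card_fin] at this
  omega

variable (h2 : (2 : R) = 0) {t} (ht : ∀ i, t i * t i = 0)
include h2 ht

theorem comm_gen {m m' : ℕ} (hm : 1 ≤ m) (hm' : 1 ≤ m') {L J J' : AddSubgroup A}
    (hLJ : ∀ x ∈ L, ∀ y ∈ J, br x y ∈ J') {g h : Aˣ} (hg : g ∈ genS t m L)
    (hh : h ∈ genS t m' J) : ⁅g, h⁆ ∈ Gam t (m + m') J' := by
  obtain ⟨I, hI, x, hx, hg⟩ := hg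
  obtain ⟨I', hI', y, hy, hh⟩ := hh
  have hv := comm_val h2 (tI_sq ht (hm.trans hI)) (tI_sq ht (hm'.trans hI')) hg hh
  by_cases hd : Disjoint I I'
  · apply Subgroup.subset_closure
    refine ⟨I ∪ I', ?_, br x y, hLJ x hx y hy, ?_⟩
    · rw [Finset.card_union_of_disjoint hd]; omega
    · rw [hv, tI_mul_of_disjoint t hd]
  · rw [tI_mul_of_not_disjoint ht hd, zero_smul, add_zero] at hv
    have : ⁅g, h⁆ = 1 := by ext; exact hv
    rw [this]; exact one_mem _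

theorem inv_gen {m : ℕ} (hm : 1 ≤ m) {L : AddSubgroup A} {g : Aˣ} (hg : g ∈ genS t m L) :
    g⁻¹ = g := by
  obtain ⟨I, hI, x, hx, hg⟩ := hg
  exact inv_eq_self h2 (tI_sq ht (hm.trans hI)) hg

theorem conj_gen {m m' : ℕ} (hm : 1 ≤ m) (hm' : 1 ≤ m') {L J : AddSubgroup A}
    (hLJ : ∀ x ∈ L, ∀ y ∈ J, br x y ∈ J) :
    ∀ g ∈ genS t m L, ∀ n ∈ Gam t m' J, g * n * g⁻¹ ∈ Gam t m' J ∧ g⁻¹ * n * g ∈ Gam t m' J := by
  intro g hg n hn
  have key : ∀ n ∈ Gam t m' J, g * n * g⁻¹ ∈ Gam t m' J := by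
    intro n hn
    rw [Gam] at hn
    induction hn using Subgroup.closure_induction with
    | mem x hx =>
      have e : g * x * g⁻¹ = ⁅g, x⁆ * x := by rw [commutatorElement_def]; group
      rw [e]
      refine mul_mem ?_ (Subgroup.subset_closure hx)
      exact Gam_mono t (Nat.le_add_left _ _) le_rfl (comm_gen h2 ht hm hm' hLJ hg hx)
    | one => simp
    | mul x y _ _ hx hy =>
      have e : g * (x * y) * g⁻¹ = (g * x * g⁻¹) * (g * y * g⁻¹) := by group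
      rw [e]; exact mul_mem hx hy
    | inv x _ hx =>
      have e : g * x⁻¹ * g⁻¹ = (g * x * g⁻¹)⁻¹ := by group
      rw [e]; exact inv_mem hx
  have e := inv_gen h2 ht hm hg
  have k1 := key n hn
  refine ⟨k1, ?_⟩
  rw [e] at k1 ⊢
  exact k1

theorem comm_Gam {m m' : ℕ} (hm : 1 ≤ m) (hm' : 1 ≤ m') {L J J' : AddSubgroup A}
    (hLJ : ∀ x ∈ L, ∀ y ∈ J, br x y ∈ J') (hLJ' : ∀ x ∈ L, ∀ y ∈ J', br x y ∈ J')
    (hJJ' : ∀ x ∈ J, ∀ y ∈ J', br x y ∈ J') :
    ⁅Gam t m L, Gam t m' J⁆ ≤ Gam t (m + m') J' := by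
  apply commutator_closure_le
  · exact conj_gen h2 ht hm (by omega) hLJ'
  · exact conj_gen h2 ht hm' (by omega) hJJ'
  · intro s hs t' ht'
    exact comm_gen h2 ht hm hm' hLJ hs ht'

theorem series_bot : ∀ (d : ℕ) (L : AddSubgroup A), Solv d L → ∀ D : ℕ → Subgroup Aˣ,
    D 0 ≤ Gam t 1 L → (∀ i, D (i + 1) ≤ ⁅D i, D i⁆) → D d = ⊥ := by
  intro d
  induction d with
  | zero =>
    intro L hL D h0 _
    rw [Solv] at hL
    rw [hL, Gam_bot] at h0
    exact le_bot_iff.mp h0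
  | succ d ih =>
    rintro L ⟨J, hJ, hbr, hs⟩ D h0 h1
    refine ih J hs (fun i => D (i + 1)) ?_ (fun i => h1 (i + 1))
    refine (h1 0).trans ((Subgroup.commutator_mono h0 h0).trans ?_)
    have h3 : ∀ x ∈ L, ∀ y ∈ J, br x y ∈ J := fun x hx y hy => hbr x hx y (hJ hy)
    exact (comm_Gam h2 ht le_rfl le_rfl hbr h3 h3).trans (Gam_mono t (by omega) le_rfl)

theorem derived_bot (d : ℕ) (L : AddSubgroup A) (hL : Solv d L) :
    derivedSeries (↥(Gam t 1 L)) d = ⊥ := by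
  have key := series_bot h2 ht d L hL
    (fun i => (derivedSeries (↥(Gam t 1 L)) i).map (Gam t 1 L).subtype) ?_ ?_
  · rw [Subgroup.map_eq_bot_iff_of_injective] at key
    · exact key
    · exact Subtype.val_injective
  · rintro _ ⟨x, _, rfl⟩
    exact x.2
  · intro i
    change (derivedSeries (↥(Gam t 1 L)) (i + 1)).map (Gam t 1 L).subtype ≤ _
    rw [derivedSeries_succ, Subgroup.map_commutator]

end Pool.Agent.LibFPF
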