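import Pool.Agent.LibFPF.Fock

set_option autoImplicit false

namespace Pool.Agent.LibFPF

open Finset

variable {p : ℕ} [NeZero p] {R : Type*} [CommRing R]

/-- Conjugation by a diagonal matrix of characters. -/
def dconj {B : Type*} [Fintype B] [DecidableEq B] (w : B → ZMod p) (χ : AddChar (ZMod p) R)
    (j : ZMod p) : Matrix B B R →+* Matrix B B R where
  toFun M := Matrix.of fun s t => χ (j * (w s - w t)) * M s t
  map_one' := by
    ext s t
    by_cases h : s = t
    · subst h; simp
    · simp [h]
  map_mul' M N := by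
    ext s u
    simp only [Matrix.of_apply, Matrix.mul_apply, Finset.mul_sum]
    refine Finset.sum_congr rfl fun t _ => ?_
    have : χ (j * (w s - w u)) = χ (j * (w s - w t)) * χ (j * (w t - w u)) := by
      rw [← AddChar.map_add_eq_mul]; congr 1; ring
    rw [this]; ring
  map_zero' := by ext; simp
  map_add' M N := by ext; simp [mul_add]

section dconj

variable {B : Type*} [Fintype B] [DecidableEq B] (w : B → ZMod p) (χ : AddChar (ZMod p) R)

theorem dconj_apply (j : ZMod p) (M : Matrix B B R) (s t : B) :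
    dconj w χ j M s t = χ (j * (w s - w t)) * M s t := rfl

theorem dconj_smul (j : ZMod p) (r : R) (M : Matrix B B R) :
    dconj w χ j (r • M) = r • dconj w χ j M := by
  ext s t; simp only [dconj_apply, Matrix.smul_apply, smul_eq_mul]; ring

theorem dconj_zero (M : Matrix B B R) : dconj w χ 0 M = M := by
  ext s t; simp [dconj_apply]

theorem dconj_add (i j : ZMod p) (M : Matrix B B R) :
    dconj w χ (i + j) M = dconj w χ i (dconj w χ j M) := by
  ext s t; simp only [dconj_apply, add_mul, AddChar.map_add_eq_mul, mul_assoc]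

end dconj

/-- The ring of matrix valued functions on `ZMod p`. -/
abbrev Alg (p : ℕ) (R : Type*) (B : Type*) : Type _ := ZMod p → Matrix B B R

section act

variable {B : Type*} [Fintype B] [DecidableEq B] (w : B → ZMod p) (χ : AddChar (ZMod p) R)

/-- The action of `ZMod p × ZMod p`. -/
def act (v : ZMod p × ZMod p) : Alg p R B →+* Alg p R B where
  toFun F η := dconj w χ v.2 (F (η + v.1))
  map_one' := by funext η; simp
  map_mul' F G := by funext η; simp
  map_zero' := by funext η; simp
  map_add' F G := by funext η; simp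

theorem act_apply (v : ZMod p × ZMod p) (F : Alg p R B) (η : ZMod p) :
    act w χ v F η = dconj w χ v.2 (F (η + v.1)) := rfl

theorem act_zero (F : Alg p R B) : act w χ 0 F = F := by
  funext η; simp [act_apply, dconj_zero]

theorem act_add (u v : ZMod p × ZMod p) (F : Alg p R B) :
    act w χ (u + v) F = act w χ u (act w χ v F) := by
  funext η; simp only [act_apply, Prod.fst_add, Prod.snd_add, dconj_add, add_assoc]

theorem act_smul (v : ZMod p × ZMod p) (r : R) (F : Alg p R B) :
    act w χ v (r • F) = r • act w χ v F := by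
  funext η; simp only [act_apply, Pi.smul_apply, dconj_smul]

end act

/-- The two shifts. -/
def sh (b : Bool) : ZMod p := if b then 1 else 0

section maps

variable {B : Type} [Fintype B] [DecidableEq B]

/-- The index type of the next level. -/
abbrev Nx (B : Type) : Type := Finset (B × Bool)

def opX (n : ZMod p → B → R) : Alg p R (Nx B) :=
  fun η => lin (fun a => cr R a) (fun i : B × Bool => n (η + sh i.2) i.1)

def opY (m : ZMod p → B → R) : Alg p R (Nx B) :=
  fun η => lin (fun a => an R a) (fun i : B × Bool => m (η + sh i.2) i.1)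

def opQ (l : Alg p R B) : Alg p R (Nx B) :=
  fun η => quad (fun a => cr R a) (fun a => an R a)
    (Matrix.blockDiagonal fun b : Bool => l (η + sh b))

def opZ {C : Type} [Fintype C] [DecidableEq C] (f : ZMod p → R) : Alg p R C :=
  fun η => (f η + f (η + 1)) • (1 : Matrix C C R)

omit [NeZero p] in
theorem br_pi_apply {C : Type} [Fintype C] [DecidableEq C] (F G : Alg p R C) (η : ZMod p) :
    br F G η = br (F η) (G η) := rfl

omit [NeZero p] in
theorem br_X_X (h2 : (2 : R) = 0) (n n' : ZMod p → B → R) : br (opX n) (opX n') = 0 := by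
  funext η; exact (ccr_fock h2).br_lin_xx _ _

omit [NeZero p] in
theorem br_Y_Y (h2 : (2 : R) = 0) (n n' : ZMod p → B → R) : br (opY n) (opY n') = 0 := by
  funext η; exact (ccr_fock h2).br_lin_yy _ _

omit [NeZero p] in
theorem br_Y_X (h2 : (2 : R) = 0) (m n : ZMod p → B → R) :
    br (opY m) (opX n) = opZ (C := Nx B) (fun η => ∑ b, m η b * n η b) := by
  funext η
  rw [br_pi_apply, opY, opX, (ccr_fock h2).br_lin_yx, opZ, Fintype.sum_prod_type]
  simp only [Fintype.univ_bool, sh]
  congr 1
  rw [← Finset.sum_add_distrib]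
  refine Finset.sum_congr rfl fun b _ => ?_
  simp
  ring

omit [NeZero p] in
theorem br_Q_X (h2 : (2 : R) = 0) (l : Alg p R B) (n : ZMod p → B → R) :
    br (opQ l) (opX n) = opX (fun η => (l η).mulVec (n η)) := by
  funext η
  rw [br_pi_apply, opQ, opX, (ccr_fock h2).br_quad_linx, opX]
  congr 1
  funext i
  obtain ⟨b, e⟩ := i
  simp only [Matrix.mulVec, dotProduct, Matrix.blockDiagonal_apply, Fintype.sum_prod_type]
  refine Finset.sum_congr rfl fun b' _ => ?_
  simp

omit [NeZero p] in
theorem br_Q_Y (h2 : (2 : R) = 0) (l : Alg p R B) (n : ZMod p → B → R) :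
    br (opQ l) (opY n) = opY (fun η => - Matrix.vecMul (n η) (l η)) := by
  funext η
  rw [br_pi_apply, opQ, opY, (ccr_fock h2).br_quad_liny, opY, ← lin_neg]
  congr 1
  funext i
  obtain ⟨b, e⟩ := i
  simp only [Matrix.vecMul, dotProduct, Matrix.blockDiagonal_apply, Fintype.sum_prod_type,
    Pi.neg_apply]
  congr 1
  refine Finset.sum_congr rfl fun b' _ => ?_
  simp

omit [NeZero p] in
theorem br_Q_Q (h2 : (2 : R) = 0) (l l' : Alg p R B) :
    br (opQ l) (opQ l') = opQ (br l l') := by
  funext η
  rw [br_pi_apply, opQ, opQ, (ccr_fock h2).br_quad_quad, opQ]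
  congr 1
  rw [← Matrix.blockDiagonal_mul, ← Matrix.blockDiagonal_mul, ← Matrix.blockDiagonal_sub]
  rfl

omit [NeZero p] in
theorem br_Z_left {C : Type} [Fintype C] [DecidableEq C] (f : ZMod p → R) (F : Alg p R C) :
    br (opZ f) F = 0 := by
  funext η; exact br_smul_one_left _ _

omit [NeZero p] in
theorem br_Z_right {C : Type} [Fintype C] [DecidableEq C] (f : ZMod p → R) (F : Alg p R C) :
    br F (opZ f) = 0 := by
  funext η; exact br_smul_one_right _ _

omit [NeZero p] [Fintype B] in
theorem opX_add [Fintype B] (n n' : ZMod p → B → R) : opX (n + n') = opX n + opX n' := by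
  funext η; exact lin_add _ _ _

omit [NeZero p] in
theorem opY_add (n n' : ZMod p → B → R) : opY (n + n') = opY n + opY n' := by
  funext η; exact lin_add _ _ _

omit [NeZero p] in
theorem opQ_add (l l' : Alg p R B) : opQ (l + l') = opQ l + opQ l' := by
  funext η
  rw [opQ, Pi.add_apply, opQ, opQ, ← quad_add, ← Matrix.blockDiagonal_add]
  rfl

omit [NeZero p] in
theorem opZ_add {C : Type} [Fintype C] [DecidableEq C] (f f' : ZMod p → R) :
    opZ (C := C) (f + f') = opZ f + opZ f' := by
  funext η
  simp only [opZ, Pi.add_apply, ← add_smul]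
  congr 1
  ring

/-- additive versions -/
def homX : (ZMod p → B → R) →+ Alg p R (Nx B) := AddMonoidHom.mk' opX opX_add
def homY : (ZMod p → B → R) →+ Alg p R (Nx B) := AddMonoidHom.mk' opY opY_add
def homQ : Alg p R B →+ Alg p R (Nx B) := AddMonoidHom.mk' opQ opQ_add
def homZ {C : Type} [Fintype C] [DecidableEq C] : (ZMod p → R) →+ Alg p R C :=
  AddMonoidHom.mk' opZ opZ_add

/-- The weight on the next level. -/
def nw (w : B → ZMod p) : Nx B → ZMod p := fun s => 1 + ∑ i ∈ s, w i.1

omit [NeZero p] [Fintype B] in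
theorem nw_cr (w : B → ZMod p) (a : B × Bool) (s : Nx B) (h : a ∈ s) :
    nw w s - nw w (s.erase a) = w a.1 := by
  simp only [nw]
  rw [← Finset.add_sum_erase s (fun i => w i.1) h]
  ring

omit [NeZero p] [Fintype B] in
theorem nw_an (w : B → ZMod p) (a : B × Bool) (s : Nx B) (h : a ∉ s) :
    nw w s - nw w (insert a s) = - w a.1 := by
  simp only [nw]
  rw [Finset.sum_insert h]
  ring

variable (w : B → ZMod p) (χ : AddChar (ZMod p) R)

theorem dconj_cr (j : ZMod p) (a : B × Bool) :
    dconj (nw w) χ j (cr R a) = χ (j * w a.1) • cr R a := by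
  ext s t
  rw [dconj_apply, Matrix.smul_apply, cr_apply, smul_eq_mul]
  by_cases h : a ∈ s ∧ t = s.erase a
  · obtain ⟨h1, rfl⟩ := h
    rw [nw_cr w a s h1]
  · rw [if_neg h]; simp

theorem dconj_an (j : ZMod p) (a : B × Bool) :
    dconj (nw w) χ j (an R a) = χ (-(j * w a.1)) • an R a := by
  ext s t
  rw [dconj_apply, Matrix.smul_apply, an_apply, smul_eq_mul]
  by_cases h : a ∉ s ∧ t = insert a s
  · obtain ⟨h1, rfl⟩ := h
    rw [nw_an w a s h1, mul_neg]
  · rw [if_neg h]; simp

theorem act_X (v : ZMod p × ZMod p) (n : ZMod p → B → R) :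
    act (nw w) χ v (opX n) = opX (fun η b => χ (v.2 * w b) * n (η + v.1) b) := by
  funext η
  rw [act_apply, opX, opX, lin, lin, map_sum]
  refine Finset.sum_congr rfl fun a _ => ?_
  rw [dconj_smul, dconj_cr, smul_smul, mul_comm]
  congr 3
  ring

theorem act_Y (v : ZMod p × ZMod p) (n : ZMod p → B → R) :
    act (nw w) χ v (opY n) = opY (fun η b => χ (-(v.2 * w b)) * n (η + v.1) b) := by
  funext η
  rw [act_apply, opY, opY, lin, lin, map_sum]
  refine Finset.sum_congr rfl fun a _ => ?_
  rw [dconj_smul, dconj_an, smul_smul, mul_comm]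
  congr 3
  ring

theorem act_Q (v : ZMod p × ZMod p) (l : Alg p R B) :
    act (nw w) χ v (opQ l) = opQ (act w χ v l) := by
  funext η
  rw [act_apply, opQ, opQ, quad, quad, map_sum]
  refine Finset.sum_congr rfl fun a _ => ?_
  rw [map_sum]
  refine Finset.sum_congr rfl fun b _ => ?_
  rw [dconj_smul, map_mul, dconj_cr, dconj_an, smul_mul_smul_comm, smul_smul]
  congr 1
  rw [Matrix.blockDiagonal_apply, Matrix.blockDiagonal_apply]
  by_cases h : a.2 = b.2
  · rw [if_pos h, if_pos h, act_apply, dconj_apply, ← AddChar.map_add_eq_mul, mul_comm]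
    have e1 : v.2 * w a.1 + -(v.2 * w b.1) = v.2 * (w a.1 - w b.1) := by ring
    have e2 : η + v.1 + sh a.2 = η + sh a.2 + v.1 := by ring
    rw [e1, e2]
  · rw [if_neg h, if_neg h, zero_mul]

theorem act_Z {C : Type} [Fintype C] [DecidableEq C] (w : C → ZMod p) (v : ZMod p × ZMod p)
    (f : ZMod p → R) :
    act w χ v (opZ f) = opZ (C := C) (fun η => f (η + v.1)) := by
  funext η
  rw [act_apply, opZ, opZ, dconj_smul, map_one]
  congr 3
  ring

end maps

end Pool.Agent.LibFPF
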