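import Pool.Agent.LibFPF.Step

set_option autoImplicit false

namespace Pool.Agent.LibFPF

open Finset

section general

variable {A : Type*} [Ring A]

/-- `L` is solvable of length at most `d` for the commutator. -/
def Solv : ℕ → AddSubgroup A → Prop
  | 0, L => L = ⊥
  | d + 1, L => ∃ J : AddSubgroup A, J ≤ L ∧ (∀ x ∈ L, ∀ y ∈ L, br x y ∈ J) ∧ Solv d J

def IsB (S : Set A) (e : A) : Prop := e ∈ S ∧ ∃ z ∈ S, br z e = e

/-- Elements surviving in all nilpotent quotients, iterated. -/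
def Deep (L : AddSubgroup A) : ℕ → Set A
  | 0 => L
  | j + 1 => {x | IsB (Deep L j) x ∨
      ∃ e₁ e₂, IsB (Deep L j) e₁ ∧ IsB (Deep L j) e₂ ∧ x = br e₁ e₂}

end general

variable {p : ℕ} [NeZero p] {R : Type*} [CommRing R]
variable {B : Type} [Fintype B] [DecidableEq B]

/-- The next Lie ring in the tower. -/
def ext (J : AddSubgroup (Alg p R B)) : AddSubgroup (Alg p R (Nx B)) where
  carrier := {F | ∃ l ∈ J, ∃ n m f, F = homQ l + homX n + homY m + homZ f}
  zero_mem' := ⟨0, J.zero_mem, 0, 0, 0, by simp⟩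
  add_mem' := by
    rintro _ _ ⟨l, hl, n, m, f, rfl⟩ ⟨l', hl', n', m', f', rfl⟩
    refine ⟨l + l', J.add_mem hl hl', n + n', m + m', f + f', ?_⟩
    simp only [map_add]; abel
  neg_mem' := by
    rintro _ ⟨l, hl, n, m, f, rfl⟩
    refine ⟨-l, J.neg_mem hl, -n, -m, -f, ?_⟩
    simp only [map_neg]; abel

section mem
variable (J : AddSubgroup (Alg p R B))
omit [NeZero p]

theorem Q_mem_ext {l : Alg p R B} (hl : l ∈ J) : opQ l ∈ ext J :=
  ⟨l, hl, 0, 0, 0, by simp only [map_zero, add_zero]; rfl⟩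

theorem X_mem_ext (n : ZMod p → B → R) : opX n ∈ ext J :=
  ⟨0, J.zero_mem, n, 0, 0, by simp only [map_zero, add_zero, zero_add]; rfl⟩

theorem Y_mem_ext (n : ZMod p → B → R) : opY n ∈ ext J :=
  ⟨0, J.zero_mem, 0, n, 0, by simp only [map_zero, add_zero, zero_add]; rfl⟩

theorem Z_mem_ext (f : ZMod p → R) : opZ f ∈ ext J :=
  ⟨0, J.zero_mem, 0, 0, f, by simp only [map_zero, zero_add]; rfl⟩

theorem ext_mono {J J' : AddSubgroup (Alg p R B)} (h : J ≤ J') : ext J ≤ ext J' := by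
  rintro _ ⟨l, hl, n, m, f, rfl⟩
  exact ⟨l, h hl, n, m, f, rfl⟩

theorem br_mem_ext (h2 : (2 : R) = 0) {J J' : AddSubgroup (Alg p R B)}
    (h : ∀ x ∈ J, ∀ y ∈ J, br x y ∈ J') :
    ∀ x ∈ ext J, ∀ y ∈ ext J, br x y ∈ ext J' := by
  rintro _ ⟨l, hl, n, m, f, rfl⟩ _ ⟨l', hl', n', m', f', rfl⟩
  change br (opQ l + opX n + opY m + opZ f) (opQ l' + opX n' + opY m' + opZ f') ∈ ext J'
  have e1 : br (opX n) (opQ l') ∈ ext J' := by
    rw [br_swap, br_Q_X h2]; exact neg_mem (X_mem_ext _ _)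
  have e2 : br (opY m) (opQ l') ∈ ext J' := by
    rw [br_swap, br_Q_Y h2]; exact neg_mem (Y_mem_ext _ _)
  have e3 : br (opX n) (opY m') ∈ ext J' := by
    rw [br_swap, br_Y_X h2]; exact neg_mem (Z_mem_ext _ _)
  have e4 : br (opQ l) (opX n') ∈ ext J' := by
    rw [br_Q_X h2]; exact X_mem_ext _ _
  have e5 : br (opQ l) (opY m') ∈ ext J' := by
    rw [br_Q_Y h2]; exact Y_mem_ext _ _
  have e6 : br (opY m) (opX n') ∈ ext J' := by
    rw [br_Y_X h2]; exact Z_mem_ext _ _
  have e7 : br (opQ l) (opQ l') ∈ ext J' := by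
    rw [br_Q_Q h2]; exact Q_mem_ext _ (h _ hl _ hl')
  simp only [br_add_left, br_add_right, br_X_X h2, br_Y_Y h2, br_Z_left, br_Z_right, add_zero,
    zero_add]
  refine add_mem (add_mem (add_mem (add_mem ?_ ?_) ?_) ?_) ?_
  all_goals first
    | assumption
    | exact add_mem ‹_› ‹_›

theorem solv_ext (h2 : (2 : R) = 0) : ∀ (d : ℕ) (J : AddSubgroup (Alg p R B)), Solv d J →
    Solv (d + 2) (ext J) := by
  intro d
  induction d with
  | zero =>
    intro J hJ
    rw [Solv] at hJ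
    subst hJ
    refine ⟨(homZ (C := Nx B)).range, ?_, ?_, ⊥, bot_le, ?_, rfl⟩
    · rintro _ ⟨f, rfl⟩; exact Z_mem_ext _ f
    · rintro _ ⟨l, hl, n, m, f, rfl⟩ _ ⟨l', hl', n', m', f', rfl⟩
      rw [AddSubgroup.mem_bot] at hl hl'
      subst hl; subst hl'
      rw [map_zero, zero_add, zero_add]
      change br (opX n + opY m + opZ f) (opX n' + opY m' + opZ f') ∈ _
      simp only [br_add_left, br_add_right, br_X_X h2, br_Y_Y h2, br_Z_left, br_Z_right, add_zero,
        zero_add, br_Y_X h2]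
      rw [br_swap (opX n), br_Y_X h2]
      exact add_mem ⟨_, rfl⟩ (neg_mem ⟨_, rfl⟩)
    · rintro _ ⟨f, rfl⟩ _ ⟨f', rfl⟩
      rw [AddSubgroup.mem_bot]
      exact br_Z_left _ _
  | succ d ih =>
    rintro J ⟨J₁, hle, hbr, hs⟩
    exact ⟨ext J₁, ext_mono hle, br_mem_ext h2 hbr, ih J₁ hs⟩

end mem

variable (w : B → ZMod p) (χ : AddChar (ZMod p) R)

/-- The properties of a level of the tower. -/
structure Lev (ℓ : ℕ) (L : AddSubgroup (Alg p R B)) : Prop where
  brk : ∀ x ∈ L, ∀ y ∈ L, br x y ∈ L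
  stab : ∀ v, ∀ x ∈ L, act w χ v x ∈ L
  tr : ∀ x ∈ L, ∑ v, act w χ v x = 0
  solv : Solv (2 * ℓ) L
  deep : ∀ j < ℓ, ∀ η : ZMod p, opZ (Pi.single η 1) ∈ Deep L j

theorem deep_Q (h2 : (2 : R) = 0) (L : AddSubgroup (Alg p R B)) :
    ∀ (j : ℕ), ∀ x ∈ Deep L j, opQ x ∈ Deep (ext L) j := by
  intro j
  induction j with
  | zero => exact fun x hx => Q_mem_ext L hx
  | succ j ih =>
    have key : ∀ x, IsB (Deep L j) x → IsB (Deep (ext L) j) (opQ x) := by
      rintro x ⟨hx, z, hz, hzx⟩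
      exact ⟨ih x hx, opQ z, ih z hz, by rw [br_Q_Q h2, hzx]⟩
    rintro x (hx | ⟨e₁, e₂, h₁, h₂, rfl⟩)
    · exact Or.inl (key x hx)
    · exact Or.inr ⟨opQ e₁, opQ e₂, key _ h₁, key _ h₂, by rw [br_Q_Q h2]⟩

/-- The basic vectors. -/
def bv (η : ZMod p) (b : B) : ZMod p → B → R := Pi.single η (Pi.single b 1)

theorem lev_bot : Lev w χ 0 (⊥ : AddSubgroup (Alg p R B)) where
  brk := by
    intro x hx y _
    rw [AddSubgroup.mem_bot] at hx
    subst hx
    rw [br_zero_left]
    exact zero_mem _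
  stab := by
    intro v x hx
    rw [AddSubgroup.mem_bot] at hx
    subst hx
    rw [map_zero]; exact zero_mem _
  tr := by
    intro x hx
    rw [AddSubgroup.mem_bot] at hx
    subst hx
    simp
  solv := rfl
  deep := by intro j hj; exact absurd hj (Nat.not_lt_zero j)

theorem char2_neg (h2 : (2 : R) = 0) (r : R) : -r = r := by
  have : r + r = 0 := by rw [← two_mul, h2, zero_mul]
  exact (eq_neg_of_add_eq_zero_left this).symm

theorem mulVec_bv (hp : (1 : ZMod p) ≠ 0) (η : ZMod p) (b : B) :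
    (fun η' => (opZ (C := B) (Pi.single η (1 : R)) η').mulVec (bv η b η')) = bv η b := by
  funext η'
  by_cases h : η' = η
  · subst h
    have : (Pi.single η' (1 : R) : ZMod p → R) (η' + 1) = 0 := by
      rw [Pi.single_apply, if_neg]; simpa using hp
    simp [opZ, this]
  · simp [bv, h]

theorem vecMul_bv (h2 : (2 : R) = 0) (hp : (1 : ZMod p) ≠ 0) (η : ZMod p) (b : B) :
    (fun η' => - Matrix.vecMul (bv η b η') (opZ (C := B) (Pi.single η (1 : R)) η')) = bv η b := by
  funext η'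
  by_cases h : η' = η
  · subst h
    have : (Pi.single η' (1 : R) : ZMod p → R) (η' + 1) = 0 := by
      rw [Pi.single_apply, if_neg]; simpa using hp
    simp only [opZ, this, Pi.single_eq_same, add_zero, one_smul, Matrix.vecMul_one]
    funext b'
    exact char2_neg h2 _
  · simp [bv, h]

theorem Lev.next [Nonempty B] {ℓ : ℕ} {L : AddSubgroup (Alg p R B)} (h : Lev w χ ℓ L)
    (h2 : (2 : R) = 0) (hp : (1 : ZMod p) ≠ 0) (hw : ∀ b, w b ≠ 0)
    (hχ : ∀ c : ZMod p, c ≠ 0 → ∑ j, χ (j * c) = 0) : Lev (nw w) χ (ℓ + 1) (ext L) where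
  brk := br_mem_ext h2 h.brk
  stab := by
    rintro v _ ⟨l, hl, n, m, f, rfl⟩
    change act (nw w) χ v (opQ l + opX n + opY m + opZ f) ∈ _
    rw [map_add, map_add, map_add, act_Q, act_X, act_Y, act_Z]
    exact add_mem (add_mem (add_mem (Q_mem_ext _ (h.stab v l hl)) (X_mem_ext _ _))
      (Y_mem_ext _ _)) (Z_mem_ext _ _)
  tr := by
    rintro _ ⟨l, hl, n, m, f, rfl⟩
    change ∑ v, act (nw w) χ v (opQ l + opX n + opY m + opZ f) = 0
    have hQ : ∑ v, act (nw w) χ v (opQ l) = 0 := by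
      simp_rw [act_Q]
      change ∑ v, homQ (act w χ v l) = 0
      rw [← map_sum, h.tr l hl, map_zero]
    have hX : ∑ v, act (nw w) χ v (opX n) = 0 := by
      simp_rw [act_X]
      change ∑ v : ZMod p × ZMod p, homX (fun η b => χ (v.2 * w b) * n (η + v.1) b) = 0
      have e : (∑ v : ZMod p × ZMod p, fun (η : ZMod p) (b : B) =>
          χ (v.2 * w b) * n (η + v.1) b) = 0 := by
        funext η b
        rw [Fintype.sum_prod_type, Finset.sum_apply, Finset.sum_apply]
        refine Finset.sum_eq_zero fun i _ => ?_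
        rw [Finset.sum_apply, Finset.sum_apply]
        change ∑ j : ZMod p, χ (j * w b) * n (η + i) b = 0
        rw [← Finset.sum_mul, hχ _ (hw b), zero_mul]
      rw [← map_sum, e, map_zero]
    have hY : ∑ v, act (nw w) χ v (opY m) = 0 := by
      simp_rw [act_Y]
      change ∑ v : ZMod p × ZMod p, homY (fun η b => χ (-(v.2 * w b)) * m (η + v.1) b) = 0
      have e : (∑ v : ZMod p × ZMod p, fun (η : ZMod p) (b : B) =>
          χ (-(v.2 * w b)) * m (η + v.1) b) = 0 := by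
        funext η b
        rw [Fintype.sum_prod_type, Finset.sum_apply, Finset.sum_apply]
        refine Finset.sum_eq_zero fun i _ => ?_
        rw [Finset.sum_apply, Finset.sum_apply]
        change ∑ j : ZMod p, χ (-(j * w b)) * m (η + i) b = 0
        rw [← Finset.sum_mul]
        simp_rw [← mul_neg]
        rw [hχ _ (neg_ne_zero.mpr (hw b)), zero_mul]
      rw [← map_sum, e, map_zero]
    have hZ : ∑ v, act (nw w) χ v (opZ f) = 0 := by
      simp_rw [act_Z]
      change ∑ v : ZMod p × ZMod p, homZ (C := Nx B) (fun η => f (η + v.1)) = 0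
      rw [← map_sum]
      change opZ (∑ v : ZMod p × ZMod p, fun η => f (η + v.1)) = 0
      funext η
      have e : ∀ η' : ZMod p, (∑ v : ZMod p × ZMod p, fun η => f (η + v.1)) η'
          = ∑ v : ZMod p × ZMod p, f v.1 := by
        intro η'
        rw [Finset.sum_apply, Fintype.sum_prod_type, Fintype.sum_prod_type]
        exact Fintype.sum_equiv (Equiv.addLeft η') _ _ (fun i => by simp)
      rw [opZ, e, e, ← two_mul, h2, zero_mul, zero_smul]
      rfl
    simp only [map_add, Finset.sum_add_distrib, hQ, hX, hY, hZ, add_zero]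
  solv := by
    rw [show 2 * (ℓ + 1) = 2 * ℓ + 2 by ring]
    exact solv_ext h2 _ _ h.solv
  deep := by
    have hB : ∀ j ≤ ℓ, ∀ η : ZMod p, ∀ b : B, opX (bv η b) ∈ Deep (ext L) j ∧
        opY (bv η b) ∈ Deep (ext L) j := by
      intro j
      induction j with
      | zero => exact fun _ η b => ⟨X_mem_ext _ _, Y_mem_ext _ _⟩
      | succ j ih =>
        intro hj η b
        obtain ⟨hX, hY⟩ := ih (by omega) η b
        have hz := deep_Q h2 L j _ (h.deep j (by omega) η)
        refine ⟨Or.inl ⟨hX, _, hz, ?_⟩, Or.inl ⟨hY, _, hz, ?_⟩⟩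
        · rw [br_Q_X h2, mulVec_bv hp]
        · rw [br_Q_Y h2, vecMul_bv h2 hp]
    intro j hj η
    cases j with
    | zero => exact Z_mem_ext _ _
    | succ j =>
      obtain ⟨b⟩ := ‹Nonempty B›
      obtain ⟨hX, hY⟩ := hB j (by omega) η b
      have hz := deep_Q h2 L j _ (h.deep j (by omega) η)
      refine Or.inr ⟨opY (bv η b), opX (bv η b), ⟨hY, _, hz, ?_⟩, ⟨hX, _, hz, ?_⟩, ?_⟩
      · rw [br_Q_Y h2, vecMul_bv h2 hp]
      · rw [br_Q_X h2, mulVec_bv hp]
      · rw [br_Y_X h2]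
        congr 1
        funext η'
        by_cases h : η' = η
        · subst h
          simp [bv, Pi.single_apply]
        · simp [bv, h]

end Pool.Agent.LibFPF
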