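import Pool.Agent.LibFPF.Tower

set_option autoImplicit false

namespace Pool.Agent.LibFPF

open Finset
open scoped commutatorElement

/-! Generalities on commutators of generated subgroups. -/

theorem commutator_closure_le {G : Type*} [Group G] {S T : Set G} {N : Subgroup G}
    (hS : ∀ s ∈ S, ∀ n ∈ N, s * n * s⁻¹ ∈ N ∧ s⁻¹ * n * s ∈ N)
    (hT : ∀ s ∈ T, ∀ n ∈ N, s * n * s⁻¹ ∈ N ∧ s⁻¹ * n * s ∈ N)
    (h : ∀ s ∈ S, ∀ t ∈ T, ⁅s, t⁆ ∈ N) :
    ⁅Subgroup.closure S, Subgroup.closure T⁆ ≤ N := by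
  have norm : ∀ {S : Set G}, (∀ s ∈ S, ∀ n ∈ N, s * n * s⁻¹ ∈ N ∧ s⁻¹ * n * s ∈ N) →
      ∀ g ∈ Subgroup.closure S, ∀ n ∈ N, g * n * g⁻¹ ∈ N ∧ g⁻¹ * n * g ∈ N := by
    intro S hS g hg
    induction hg using Subgroup.closure_induction with
    | mem x hx => exact hS x hx
    | one => intro n hn; simpa using hn
    | mul x y _ _ hx hy =>
      intro n hn
      constructor
      · have := (hx _ (hy n hn).1).1
        simpa [mul_assoc] using this
      · have := (hy _ (hx n hn).2).2
        simpa [mul_assoc] using this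
    | inv x _ hx =>
      intro n hn
      refine ⟨?_, ?_⟩
      · simpa using (hx n hn).2
      · simpa using (hx n hn).1
  have nS := norm hS
  have nT := norm hT
  have step : ∀ t ∈ T, ∀ g ∈ Subgroup.closure S, ⁅g, t⁆ ∈ N := by
    intro t ht g hg
    induction hg using Subgroup.closure_induction with
    | mem x hx => exact h x hx t ht
    | one => simpa using N.one_mem
    | mul x y hx hy ihx ihy =>
      have : ⁅x * y, t⁆ = (x * ⁅y, t⁆ * x⁻¹) * ⁅x, t⁆ := by
        simp only [commutatorElement_def]; group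
      rw [this]
      exact N.mul_mem (nS x hx _ ihy).1 ihx
    | inv x hx ih =>
      have : ⁅x⁻¹, t⁆ = x⁻¹ * ⁅x, t⁆⁻¹ * x := by
        simp only [commutatorElement_def]; group
      rw [this]
      exact (nS x hx _ (N.inv_mem ih)).2
  rw [Subgroup.commutator_le]
  intro g hg t ht
  induction ht using Subgroup.closure_induction with
  | mem x hx => exact step x hx g hg
  | one => simpa using N.one_mem
  | mul x y hx hy ihx ihy =>
    have : ⁅g, x * y⁆ = ⁅g, x⁆ * (x * ⁅g, y⁆ * x⁻¹) := by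
      simp only [commutatorElement_def]; group
    rw [this]
    exact N.mul_mem ihx (nT x hx _ ihy).1
  | inv x hx ih =>
    have : ⁅g, x⁻¹⁆ = x⁻¹ * ⁅g, x⁆⁻¹ * x := by
      simp only [commutatorElement_def]; group
    rw [this]
    exact (nT x hx _ (N.inv_mem ih)).2

/-! Products of square zero elements. -/

section T

variable {R : Type*} [CommRing R] {K : ℕ} (t : Fin K → R)

def tI (I : Finset (Fin K)) : R := ∏ i ∈ I, t i

theorem tI_mul_of_disjoint {I J : Finset (Fin K)} (h : Disjoint I J) :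
    tI t I * tI t J = tI t (I ∪ J) := (Finset.prod_union h).symm

variable {t} (ht : ∀ i, t i * t i = 0)
include ht

theorem tI_mul_of_not_disjoint {I J : Finset (Fin K)} (h : ¬ Disjoint I J) :
    tI t I * tI t J = 0 := by
  rw [Finset.not_disjoint_iff] at h
  obtain ⟨i, hi, hj⟩ := h
  rw [tI, tI, ← Finset.mul_prod_erase I t hi, ← Finset.mul_prod_erase J t hj]
  calc _ = (t i * t i) * ((∏ x ∈ I.erase i, t x) * ∏ x ∈ J.erase i, t x) := by ring
    _ = 0 := by rw [ht, zero_mul]

theorem tI_sq {I : Finset (Fin K)} (h : 1 ≤ I.card) : tI t I * tI t I = 0 := by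
  apply tI_mul_of_not_disjoint ht
  rw [disjoint_self]
  intro h0
  rw [h0] at h
  simp at h

end T

section U

variable {R : Type*} [CommRing R] {A : Type*} [Ring A] [Algebra R A] (h2 : (2 : R) = 0)
include h2

theorem two_A (A : Type*) [Ring A] [Algebra R A] : (2 : A) = 0 := by
  have : (2 : A) = algebraMap R A 2 := (map_ofNat (algebraMap R A) 2).symm
  rw [this, h2, map_zero]

theorem add_self_A (x : A) : x + x = 0 := by
  rw [← two_mul, two_A h2 A, zero_mul]

theorem neg_A (x : A) : -x = x := (eq_neg_of_add_eq_zero_left (add_self_A h2 x)).symm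

omit h2 in
theorem smul_sq {τ : R} (hτ : τ * τ = 0) (x : A) : (τ • x) * (τ • x) = 0 := by
  rw [smul_mul_smul_comm, hτ, zero_smul]

theorem one_add_sq {τ : R} (hτ : τ * τ = 0) (x : A) :
    (1 + τ • x) * (1 + τ • x) = 1 := by
  have h1 := smul_sq hτ x
  have h3 := add_self_A h2 (τ • x)
  generalize τ • x = a at h1 h3
  calc (1 + a) * (1 + a) = 1 + (a + a) + a * a := by noncomm_ring
    _ = 1 := by rw [h1, h3]; simp

def mkU {τ : R} (hτ : τ * τ = 0) (x : A) : Aˣ :=
  ⟨1 + τ • x, 1 + τ • x, one_add_sq h2 hτ x, one_add_sq h2 hτ x⟩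

theorem mkU_val {τ : R} (hτ : τ * τ = 0) (x : A) : (mkU h2 hτ x : A) = 1 + τ • x := rfl

theorem sq_eq_one {τ : R} (hτ : τ * τ = 0) {x : A} {g : Aˣ} (hg : (g : A) = 1 + τ • x) :
    g * g = 1 := by
  ext; rw [Units.val_mul, hg, one_add_sq h2 hτ, Units.val_one]

theorem inv_eq_self {τ : R} (hτ : τ * τ = 0) {x : A} {g : Aˣ} (hg : (g : A) = 1 + τ • x) :
    g⁻¹ = g := inv_eq_of_mul_eq_one_left (sq_eq_one h2 hτ hg)

theorem comm_val {τ σ : R} (hτ : τ * τ = 0) (hσ : σ * σ = 0) {x y : A} {g h : Aˣ}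
    (hg : (g : A) = 1 + τ • x) (hh : (h : A) = 1 + σ • y) :
    ((⁅g, h⁆ : Aˣ) : A) = 1 + (τ * σ) • br x y := by
  rw [commutatorElement_def, inv_eq_self h2 hτ hg, inv_eq_self h2 hσ hh]
  simp only [Units.val_mul, hg, hh]
  set a := τ • x with ha
  set b := σ • y with hb
  have haa : a * a = 0 := smul_sq hτ x
  have hbb : b * b = 0 := smul_sq hσ y
  have haba : a * b * a = 0 := by
    rw [ha, hb, smul_mul_smul_comm, smul_mul_smul_comm,
      show τ * σ * τ = τ * τ * σ by ring, hτ, zero_mul, zero_smul]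
  have hbab : b * a * b = 0 := by
    rw [ha, hb, smul_mul_smul_comm, smul_mul_smul_comm,
      show σ * τ * σ = σ * σ * τ by ring, hσ, zero_mul, zero_smul]
  have hbr : (τ * σ) • br x y = a * b - b * a := by
    rw [ha, hb, smul_mul_smul_comm, smul_mul_smul_comm, br, smul_sub, mul_comm σ τ]
  rw [hbr]
  have e : (1 + a) * (1 + b) * (1 + a) * (1 + b)
      = 1 + (a + a) + (b + b) + (a * b + a * b) + (b * a + b * a) + (a * b - b * a)
        + a * a + b * b + a * a * b + a * (b * b) + a * b * a + b * a * b + a * (b * a * b) := by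
    noncomm_ring
  rw [e, haa, hbb, haba, hbab, add_self_A h2 a, add_self_A h2 b, add_self_A h2 (a * b),
    add_self_A h2 (b * a)]
  simp

omit h2 in
theorem mul_val {τ : R} (hτ : τ * τ = 0) {x y : A} {g h : Aˣ}
    (hg : (g : A) = 1 + τ • x) (hh : (h : A) = 1 + τ • y) :
    ((g * h : Aˣ) : A) = 1 + τ • (x + y) := by
  have h0 : (τ • x) * (τ • y) = 0 := by rw [smul_mul_smul_comm, hτ, zero_smul]
  rw [Units.val_mul, hg, hh, smul_add]
  generalize τ • x = a at h0
  generalize τ • y = b at h0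
  have : (1 + a) * (1 + b) = 1 + (a + b) + a * b := by noncomm_ring
  rw [this, h0, add_zero]

end U

end Pool.Agent.LibFPF
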